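import Pool.Agent.W187.WQ.BotS

/-!
# WQ-MEL: the Mellin transform of `qq` vanishes at the zeros of zeta (helper806)
-/

set_option autoImplicit false

open Complex MeasureTheory Set Filter Topology
open Pool.Agent.W187.WP Pool.Agent.W187.WQ

namespace Pool.Agent.W806.WQ

/-! ### Tools -/

theorem integrable_of_exp {F : ℝ → ℂ} {a b C : ℝ} (hF : Continuous F) (ha : 0 < a)
    (h1 : ∀ u ≤ b, ‖F u‖ ≤ C * Real.exp (a * u)) (h2 : ∀ u, b < u → F u = 0) :
    Integrable F := by
  have h3 : IntegrableOn F (Iic b) := by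
    refine Integrable.mono' ((integrableOn_exp_mul_Iic ha b).const_mul C)
      hF.aestronglyMeasurable.restrict ?_
    exact (ae_restrict_iff' measurableSet_Iic).2 (ae_of_all _ fun u hu => h1 u hu)
  have h4 : IntegrableOn F (Ioi b) :=
    (integrableOn_congr_fun (g := fun _ => (0 : ℂ)) (fun u hu => h2 u hu) measurableSet_Ioi).2
      integrableOn_zero
  rw [← integrableOn_univ, ← Iic_union_Ioi (a := b)]
  exact h3.union h4

theorem lap_mellin (f : ℝ → ℂ) (s : ℂ) :
    mellin f s = ∫ u : ℝ, cexp (s * u) * f (Real.exp u) := by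
  have h := integral_image_eq_integral_abs_deriv_smul (s := univ) (f := Real.exp)
    (f' := Real.exp) MeasurableSet.univ (fun x _ => (Real.hasDerivAt_exp x).hasDerivWithinAt)
    Real.exp_injective.injOn (fun t : ℝ => (t : ℂ) ^ (s - 1) • f t)
  rw [image_univ, Real.range_exp, setIntegral_univ] at h
  rw [mellin, h]
  refine integral_congr_ae (ae_of_all _ fun u => ?_)
  have h1 : ((Real.exp u : ℝ) : ℂ) ^ (s - 1) = cexp ((s - 1) * u) := by
    rw [Complex.cpow_def_of_ne_zero (by exact_mod_cast (Real.exp_pos u).ne'),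
      ← Complex.ofReal_log (Real.exp_pos u).le, Real.log_exp, mul_comm]
  show |Real.exp u| • (((Real.exp u : ℝ) : ℂ) ^ (s - 1) • f (Real.exp u)) =
    cexp (s * u) * f (Real.exp u)
  rw [h1, abs_of_pos (Real.exp_pos u), Complex.real_smul, smul_eq_mul, ofReal_exp, ← mul_assoc,
    ← Complex.exp_add]
  congr 2
  ring

theorem diff_mellin {f : ℝ → ℂ} {b C R : ℝ} (hf : ContinuousOn f (Ioi 0))
    (h1 : ∀ x, R ≤ x → f x = 0) (h2 : ∀ x, 0 < x → x ≤ 1 → ‖f x‖ ≤ C * x ^ b) {s : ℂ}
    (hs : -b < s.re) : DifferentiableAt ℂ (mellin f) s := by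
  refine mellin_differentiableAt_of_isBigO_rpow (a := s.re + 1) (b := -b)
    (hf.locallyIntegrableOn measurableSet_Ioi) ?_ (by linarith) ?_ hs
  · refine Asymptotics.IsBigO.of_bound 0 ?_
    filter_upwards [eventually_ge_atTop R] with x hx
    rw [h1 x hx]
    simp
  · refine Asymptotics.IsBigO.of_bound C ?_
    filter_upwards [Ioc_mem_nhdsGT (one_pos : (0 : ℝ) < 1)] with x hx
    rw [neg_neg, Real.norm_of_nonneg (Real.rpow_nonneg hx.1.le _)]
    exact h2 x hx.1 hx.2

/-- the entire function `(s - 1) ζ(s)` -/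
noncomputable def FF : ℂ → ℂ := Function.update (fun s => (s - 1) * riemannZeta s) 1 1

theorem FF_ne {s : ℂ} (hs : s ≠ 1) : FF s = (s - 1) * riemannZeta s :=
  Function.update_of_ne hs _ _

theorem FF_one : FF 1 = 1 := Function.update_self _ _ _

theorem FF_diff : Differentiable ℂ FF := by
  have hne : ∀ s : ℂ, s ≠ 1 → DifferentiableAt ℂ FF s := by
    intro s hs
    have h1 : DifferentiableAt ℂ (fun s => (s - 1) * riemannZeta s) s :=
      (differentiableAt_id.sub_const 1).mul (differentiableAt_riemannZeta hs)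
    refine h1.congr_of_eventuallyEq ?_
    filter_upwards [isOpen_ne.mem_nhds hs] with t ht
    exact FF_ne ht
  intro s
  rcases ne_or_eq s 1 with hs | rfl
  · exact hne s hs
  refine (analyticAt_of_differentiable_on_punctured_nhds_of_continuousAt ?_ ?_).differentiableAt
  · filter_upwards [self_mem_nhdsWithin] with t ht
    exact hne t ht
  · unfold FF
    rw [continuousAt_update_same]
    exact riemannZeta_residue_one

/-! ### The function `gq` -/

section gq

variable {h : ℝ → ℝ}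

theorem term_zero (hs : ∀ x, 2 ≤ |x| → h x = 0) {u K : ℝ} {n : ℕ} (hu : K ≤ u)
    (hn : 2 * Real.exp (-K) ≤ (n : ℝ) + 1) : h (((n : ℝ) + 1) * Real.exp u) = 0 := by
  apply hs
  rw [abs_of_nonneg (by positivity)]
  calc (2 : ℝ) = 2 * Real.exp (-K) * Real.exp K := by
        rw [mul_assoc, ← Real.exp_add, neg_add_cancel, Real.exp_zero, mul_one]
    _ ≤ ((n : ℝ) + 1) * Real.exp u :=
        mul_le_mul hn (Real.exp_le_exp.2 hu) (Real.exp_pos _).le (by positivity)

theorem gq_fin (hs : ∀ x, 2 ≤ |x| → h x = 0) {u K : ℝ} (hu : K ≤ u) :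
    gq h u = Real.exp (u / 2) *
      ∑ n ∈ Finset.range ⌊2 * Real.exp (-K)⌋₊, h (((n : ℝ) + 1) * Real.exp u) := by
  unfold gq
  congr 1
  apply tsum_eq_sum
  intro n hn
  rw [Finset.mem_range, not_lt] at hn
  apply term_zero hs hu
  have h1 := Nat.lt_floor_add_one (2 * Real.exp (-K))
  have h2 : ((⌊2 * Real.exp (-K)⌋₊ : ℕ) : ℝ) ≤ n := by exact_mod_cast hn
  linarith

theorem gq_cont (hc : Continuous h) (hs : ∀ x, 2 ≤ |x| → h x = 0) : Continuous (gq h) := by
  rw [continuous_iff_continuousAt]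
  intro u
  have h1 : Continuous fun v : ℝ => Real.exp (v / 2) *
      ∑ n ∈ Finset.range ⌊2 * Real.exp (-(u - 1))⌋₊, h (((n : ℝ) + 1) * Real.exp v) := by
    refine (Real.continuous_exp.comp (continuous_id.div_const 2)).mul ?_
    refine continuous_finsetSum _ fun n _ => ?_
    exact hc.comp (continuous_const.mul Real.continuous_exp)
  refine h1.continuousAt.congr ?_
  filter_upwards [Ioi_mem_nhds (show u - 1 < u by linarith)] with v hv
  exact (gq_fin hs (le_of_lt hv)).symm

theorem gq_zero (hs : ∀ x, 2 ≤ |x| → h x = 0) {u : ℝ} (hu : Real.log 2 ≤ u) : gq h u = 0 := by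
  unfold gq
  have h1 : ∀ n : ℕ, h (((n : ℝ) + 1) * Real.exp u) = 0 := by
    intro n
    apply term_zero hs hu
    rw [Real.exp_neg, Real.exp_log two_pos]
    have : (0 : ℝ) ≤ n := Nat.cast_nonneg n
    norm_num
  simp [h1]

theorem gq_bound (hs : ∀ x, 2 ≤ |x| → h x = 0) {B : ℝ} (hB : ∀ x, |h x| ≤ B) (u : ℝ) :
    |gq h u| ≤ 2 * B * Real.exp (-(u / 2)) := by
  have hB0 : 0 ≤ B := (abs_nonneg _).trans (hB 0)
  rw [gq_fin hs le_rfl, abs_mul, abs_of_pos (Real.exp_pos _)]
  have h1 : |∑ n ∈ Finset.range ⌊2 * Real.exp (-u)⌋₊, h (((n : ℝ) + 1) * Real.exp u)| ≤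
      2 * Real.exp (-u) * B := by
    refine (Finset.abs_sum_le_sum_abs _ _).trans ?_
    refine (Finset.sum_le_card_nsmul _ _ B fun n _ => hB _).trans ?_
    rw [Finset.card_range, nsmul_eq_mul]
    exact mul_le_mul_of_nonneg_right (Nat.floor_le (by positivity)) hB0
  calc Real.exp (u / 2) * |∑ n ∈ Finset.range ⌊2 * Real.exp (-u)⌋₊,
        h (((n : ℝ) + 1) * Real.exp u)| ≤ Real.exp (u / 2) * (2 * Real.exp (-u) * B) :=
        mul_le_mul_of_nonneg_left h1 (Real.exp_pos _).le
    _ = 2 * B * (Real.exp (u / 2) * Real.exp (-u)) := by ring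
    _ = 2 * B * Real.exp (-(u / 2)) := by
        rw [← Real.exp_add]
        congr 2
        ring

theorem exists_bd (hc : Continuous h) (hs : ∀ x, 2 ≤ |x| → h x = 0) : ∃ B, ∀ x, |h x| ≤ B := by
  obtain ⟨B, hB⟩ := (isCompact_Icc (a := (-2 : ℝ)) (b := 2)).exists_bound_of_continuousOn
    hc.continuousOn
  refine ⟨B, fun x => ?_⟩
  by_cases hx : 2 ≤ |x|
  · rw [hs x hx, abs_zero]
    exact (norm_nonneg _).trans (hB 0 (by constructor <;> norm_num))
  · push Not at hx
    exact hB x (abs_le.1 hx.le)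

variable (hc : Continuous h) (hs : ∀ x, 2 ≤ |x| → h x = 0)

include hc hs

theorem int_m {s : ℂ} (h0 : 0 < s.re) :
    Integrable fun v : ℝ => cexp (s * v) * ((h (Real.exp v) : ℝ) : ℂ) := by
  obtain ⟨B, hB⟩ := exists_bd hc hs
  refine integrable_of_exp (a := s.re) (b := Real.log 2) (C := B) ?_ h0 ?_ ?_
  · refine (Complex.continuous_exp.comp (continuous_const.mul Complex.continuous_ofReal)).mul ?_
    exact Complex.continuous_ofReal.comp (hc.comp Real.continuous_exp)
  · intro u _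
    rw [norm_mul, Complex.norm_exp, Complex.norm_real, Real.norm_eq_abs, mul_comm]
    have h1 : (s * (u : ℂ)).re = s.re * u := by simp
    rw [h1]
    exact mul_le_mul_of_nonneg_right (hB _) (Real.exp_pos _).le
  · intro u hu
    have h1 : h (Real.exp u) = 0 := by
      apply hs
      rw [abs_of_pos (Real.exp_pos u)]
      rw [← Real.exp_log (two_pos : (0 : ℝ) < 2)]
      exact Real.exp_le_exp.2 hu.le
    rw [h1]
    simp

theorem int_gq {s : ℂ} (h1 : 1 < s.re) :
    ∫ u : ℝ, ((gq h u : ℝ) : ℂ) * cexp ((s - 1 / 2) * u) =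
      riemannZeta s * mellin (fun x => ((h x : ℝ) : ℂ)) s := by
  set m : ℝ → ℂ := fun v => cexp (s * v) * ((h (Real.exp v) : ℝ) : ℂ) with hm
  have hmi : Integrable m := int_m hc hs (by linarith)
  have hT : ∀ (n : ℕ) (u : ℝ), cexp (s * u) * ((h (((n : ℝ) + 1) * Real.exp u) : ℝ) : ℂ) =
      1 / ((n : ℂ) + 1) ^ s * m (u + Real.log ((n : ℝ) + 1)) := by
    intro n u
    have hn : (0 : ℝ) < (n : ℝ) + 1 := by positivity
    have hn' : ((n : ℂ) + 1) ≠ 0 := by exact_mod_cast hn.ne'
    have h2 : ((n : ℂ) + 1) ^ s = cexp (s * Real.log ((n : ℝ) + 1)) := by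
      rw [Complex.cpow_def_of_ne_zero hn', Complex.ofReal_log hn.le, mul_comm]
      push_cast
      rfl
    have h3 : Real.exp (u + Real.log ((n : ℝ) + 1)) = ((n : ℝ) + 1) * Real.exp u := by
      rw [Real.exp_add, Real.exp_log hn, mul_comm]
    have h4 : cexp (s * Real.log ((n : ℝ) + 1)) ≠ 0 := Complex.exp_ne_zero _
    simp only [hm]
    rw [h2, h3]
    have h5 : cexp (s * ((u + Real.log ((n : ℝ) + 1) : ℝ) : ℂ)) =
        cexp (s * u) * cexp (s * Real.log ((n : ℝ) + 1)) := by
      rw [← Complex.exp_add]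
      congr 1
      push_cast
      ring
    rw [h5]
    field_simp
  have hsum : Summable fun n : ℕ => 1 / ((n : ℂ) + 1) ^ s := by
    have h2 := (summable_nat_add_iff 1).2 (Complex.summable_one_div_nat_cpow.2 h1)
    refine h2.congr fun n => ?_
    push_cast
    rfl
  have hkey := hasSum_integral_of_summable_integral_norm (μ := (volume : Measure ℝ))
    (F := fun (n : ℕ) (u : ℝ) => cexp (s * u) * ((h (((n : ℝ) + 1) * Real.exp u) : ℝ) : ℂ))
    (by
      intro n
      simp only [hT]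
      exact (hmi.comp_add_right _).const_mul _)
    (by
      simp only [hT, norm_mul]
      have h2 : ∀ n : ℕ, ∫ u : ℝ, ‖1 / ((n : ℂ) + 1) ^ s‖ * ‖m (u + Real.log ((n : ℝ) + 1))‖ =
          ‖1 / ((n : ℂ) + 1) ^ s‖ * ∫ u : ℝ, ‖m u‖ := by
        intro n
        rw [integral_const_mul]
        congr 1
        exact integral_add_right_eq_self (fun u => ‖m u‖) _
      simp only [h2]
      exact hsum.norm.mul_right _)
  have h3 : ∀ n : ℕ, ∫ u : ℝ, cexp (s * u) * ((h (((n : ℝ) + 1) * Real.exp u) : ℝ) : ℂ) =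
      1 / ((n : ℂ) + 1) ^ s * ∫ u : ℝ, m u := by
    intro n
    simp only [hT]
    rw [integral_const_mul]
    congr 1
    exact integral_add_right_eq_self (fun u => m u) _
  simp only [h3] at hkey
  have h4 : ∀ u : ℝ, ∑' n : ℕ, cexp (s * u) * ((h (((n : ℝ) + 1) * Real.exp u) : ℝ) : ℂ) =
      ((gq h u : ℝ) : ℂ) * cexp ((s - 1 / 2) * u) := by
    intro u
    rw [tsum_mul_left, ← Complex.ofReal_tsum]
    unfold gq
    push_cast
    have h5 : cexp (s * u) = cexp ((u : ℂ) / 2) * cexp ((s - 1 / 2) * u) := by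
      rw [← Complex.exp_add]
      congr 1
      ring
    rw [h5]
    ring
  simp only [h4] at hkey
  rw [← hkey.tsum_eq, tsum_mul_right, ← zeta_eq_tsum_one_div_nat_add_one_cpow h1, lap_mellin]

theorem integrable_gq {s : ℂ} (h1 : 1 < s.re) :
    Integrable fun u : ℝ => ((gq h u : ℝ) : ℂ) * cexp ((s - 1 / 2) * u) := by
  obtain ⟨B, hB⟩ := exists_bd hc hs
  refine integrable_of_exp (a := s.re - 1) (b := Real.log 2) (C := 2 * B) ?_ (by linarith) ?_ ?_
  · refine (Complex.continuous_ofReal.comp (gq_cont hc hs)).mul ?_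
    exact Complex.continuous_exp.comp (continuous_const.mul Complex.continuous_ofReal)
  · intro u _
    rw [norm_mul, Complex.norm_exp, Complex.norm_real, Real.norm_eq_abs]
    have h2 : ((s - 1 / 2) * (u : ℂ)).re = (s.re - 1 / 2) * u := by
      simp
    rw [h2]
    calc |gq h u| * Real.exp ((s.re - 1 / 2) * u) ≤
        2 * B * Real.exp (-(u / 2)) * Real.exp ((s.re - 1 / 2) * u) :=
          mul_le_mul_of_nonneg_right (gq_bound hs hB u) (Real.exp_pos _).le
      _ = 2 * B * Real.exp ((s.re - 1) * u) := by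
          rw [mul_assoc, ← Real.exp_add]
          congr 2
          ring
  · intro u hu
    rw [gq_zero hs hu.le]
    simp

theorem int_gq_shift {s : ℂ} (h1 : 1 < s.re) (δ : ℝ) :
    Integrable (fun u : ℝ => ((gq h (u + δ) : ℝ) : ℂ) * cexp ((s - 1 / 2) * u)) ∧
    ∫ u : ℝ, ((gq h (u + δ) : ℝ) : ℂ) * cexp ((s - 1 / 2) * u) =
      cexp (-((s - 1 / 2) * δ)) * (riemannZeta s * mellin (fun x => ((h x : ℝ) : ℂ)) s) := by
  have h2 : ∀ u : ℝ, ((gq h (u + δ) : ℝ) : ℂ) * cexp ((s - 1 / 2) * u) =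
      cexp (-((s - 1 / 2) * δ)) *
        (((gq h (u + δ) : ℝ) : ℂ) * cexp ((s - 1 / 2) * ((u + δ : ℝ) : ℂ))) := by
    intro u
    have h3 : cexp ((s - 1 / 2) * u) = cexp (-((s - 1 / 2) * δ)) *
        cexp ((s - 1 / 2) * ((u + δ : ℝ) : ℂ)) := by
      rw [← Complex.exp_add]
      congr 1
      push_cast
      ring
    rw [h3]
    ring
  simp only [h2]
  constructor
  · exact ((integrable_gq hc hs h1).comp_add_right δ).const_mul _
  · rw [integral_const_mul, ← int_gq hc hs h1]
    congr 1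
    exact integral_add_right_eq_self
      (fun u : ℝ => ((gq h u : ℝ) : ℂ) * cexp ((s - 1 / 2) * u)) δ

theorem int_qq {s : ℂ} (h1 : 1 < s.re) (ε : ℝ) :
    ∫ u : ℝ, ((qq ε h u : ℝ) : ℂ) * cexp ((s - 1 / 2) * u) =
      (cexp (-((s - 1 / 2) * ε)) + cexp ((s - 1 / 2) * ε) - 2 * Complex.cosh (ε / 2)) *
        (riemannZeta s * mellin (fun x => ((h x : ℝ) : ℂ)) s) := by
  obtain ⟨a1, a2⟩ := int_gq_shift hc hs h1 ε
  obtain ⟨b1, b2⟩ := int_gq_shift hc hs h1 (-ε)
  have c1 := integrable_gq hc hs h1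
  have c2 := int_gq hc hs h1
  have h2 : ∀ u : ℝ, ((qq ε h u : ℝ) : ℂ) * cexp ((s - 1 / 2) * u) =
      (((gq h (u + ε) : ℝ) : ℂ) * cexp ((s - 1 / 2) * u) +
        ((gq h (u + -ε) : ℝ) : ℂ) * cexp ((s - 1 / 2) * u)) -
        2 * Complex.cosh (ε / 2) * (((gq h u : ℝ) : ℂ) * cexp ((s - 1 / 2) * u)) := by
    intro u
    unfold qq
    push_cast
    rw [← sub_eq_add_neg u ε]
    ring
  simp only [h2]
  have hab : Integrable (fun u : ℝ => ((gq h (u + ε) : ℝ) : ℂ) * cexp ((s - 1 / 2) * u) +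
      ((gq h (u + -ε) : ℝ) : ℂ) * cexp ((s - 1 / 2) * u)) := a1.add b1
  rw [integral_sub hab (c1.const_mul _), integral_add a1 b1, integral_const_mul, a2, b2, c2]
  have h3 : cexp (-((s - 1 / 2) * ((-ε : ℝ) : ℂ))) = cexp ((s - 1 / 2) * ε) := by
    congr 1
    push_cast
    ring
  rw [h3]
  ring

end gq

theorem mel : S_MEL := by
  intro ε h hε hε1 hcd heven hs hA
  obtain ⟨A, hA⟩ := hA
  have hc : Continuous h := hcd.continuous
  obtain ⟨B, hB⟩ := exists_bd hc hs
  set Q : ℂ → ℂ := fun s => mellin (fun x => ((qq ε h (Real.log x) : ℝ) : ℂ)) (s - 1 / 2) with hQ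
  set Mh : ℂ → ℂ := mellin (fun x => ((h x : ℝ) : ℂ)) with hMh
  have hQi : ∀ s, Q s = ∫ u : ℝ, ((qq ε h u : ℝ) : ℂ) * cexp ((s - 1 / 2) * u) := by
    intro s
    simp only [hQ]
    rw [lap_mellin]
    refine integral_congr_ae (ae_of_all _ fun u => ?_)
    simp only [Real.log_exp]
    rw [mul_comm]
  have hqc : Continuous (qq ε h) := by
    have h1 := gq_cont hc hs
    unfold qq
    refine ((h1.comp (continuous_id.add continuous_const)).add
      (h1.comp (continuous_id.sub continuous_const))).sub (continuous_const.mul h1)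
  have hqz : ∀ u, Real.log 2 + ε ≤ u → qq ε h u = 0 := by
    intro u hu
    unfold qq
    rw [gq_zero hs (by linarith), gq_zero hs (by linarith), gq_zero hs (by linarith)]
    ring
  have hQd : ∀ s : ℂ, 0 < s.re → DifferentiableAt ℂ Q s := by
    intro s hs0
    have h1 : DifferentiableAt ℂ (mellin (fun x => ((qq ε h (Real.log x) : ℝ) : ℂ)))
        (s - 1 / 2) := by
      refine diff_mellin (b := 3 / 2) (C := A) (R := 2 * Real.exp ε) ?_ ?_ ?_ ?_
      · refine Complex.continuous_ofReal.comp_continuousOn ?_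
        refine hqc.comp_continuousOn ?_
        exact Real.continuousOn_log.mono fun x hx => (ne_of_gt hx : x ≠ 0)
      · intro x hx
        have h2 : Real.log 2 + ε ≤ Real.log x := by
          rw [← Real.log_exp ε, ← Real.log_mul two_ne_zero (Real.exp_pos ε).ne']
          exact Real.log_le_log (by positivity) hx
        rw [hqz _ h2]
        simp
      · intro x hx hx1
        rw [Complex.norm_real, Real.norm_eq_abs]
        refine (hA _ (Real.log_nonpos hx.le hx1)).trans (le_of_eq ?_)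
        rw [Real.rpow_def_of_pos hx, mul_comm (3 / 2 : ℝ)]
      · have h2 : (s - 1 / 2).re = s.re - 1 / 2 := by simp
        rw [h2]
        linarith
    exact DifferentiableAt.comp (g := mellin (fun x => ((qq ε h (Real.log x) : ℝ) : ℂ)))
      (f := fun s : ℂ => s - 1 / 2) s h1 (differentiableAt_id.sub_const _)
  have hMd : ∀ s : ℂ, 0 < s.re → DifferentiableAt ℂ Mh s := by
    intro s hs0
    refine diff_mellin (b := 0) (C := B) (R := 2) ?_ ?_ ?_ ?_
    · exact (Complex.continuous_ofReal.comp hc).continuousOn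
    · intro x hx
      rw [hs x (hx.trans (le_abs_self x))]
      simp
    · intro x hx _
      rw [Complex.norm_real, Real.norm_eq_abs, Real.rpow_zero, mul_one]
      exact hB x
    · rw [neg_zero]
      exact hs0
  set Kf : ℂ → ℂ := fun s => cexp (-((s - 1 / 2) * ε)) + cexp ((s - 1 / 2) * ε) -
    2 * Complex.cosh (ε / 2) with hKf
  have hKd : Differentiable ℂ Kf := by
    intro s
    simp only [hKf]
    fun_prop
  have hU : IsOpen {s : ℂ | 0 < s.re} := isOpen_lt continuous_const Complex.continuous_re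
  have hpre : IsPreconnected {s : ℂ | 0 < s.re} := (convex_halfSpace_re_gt 0).isPreconnected
  have hf1 : DifferentiableOn ℂ (fun s => (s - 1) * Q s) {s : ℂ | 0 < s.re} := fun s hs0 =>
    ((differentiableAt_id.sub_const 1).mul (hQd s hs0)).differentiableWithinAt
  have hf2 : DifferentiableOn ℂ (fun s => Kf s * (FF s * Mh s)) {s : ℂ | 0 < s.re} :=
    fun s hs0 => ((hKd s).mul ((FF_diff s).mul (hMd s hs0))).differentiableWithinAt
  have heq : EqOn (fun s => (s - 1) * Q s) (fun s => Kf s * (FF s * Mh s))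
      {s : ℂ | 0 < s.re} := by
    refine AnalyticOnNhd.eqOn_of_preconnected_of_eventuallyEq (hf1.analyticOnNhd hU)
      (hf2.analyticOnNhd hU) hpre (z₀ := 2) (by simp) ?_
    have h1 : {s : ℂ | 1 < s.re} ∈ 𝓝 (2 : ℂ) :=
      (isOpen_lt continuous_const Complex.continuous_re).mem_nhds (by simp)
    filter_upwards [h1] with s hs1
    have hs1' : 1 < s.re := hs1
    have hne : s ≠ 1 := by
      rintro rfl
      simp at hs1'
    rw [hQi, int_qq hc hs hs1', FF_ne hne]
    simp only [hKf]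
    ring
  refine ⟨fun ρ => ?_, ?_⟩
  · obtain ⟨ρ, hρ0, hρ1, hρ2⟩ := ρ
    have hne : ρ ≠ 1 := by
      rintro rfl
      simp at hρ2
    have h1 := heq hρ1
    simp only at h1
    rw [FF_ne hne, hρ0, mul_zero, zero_mul, mul_zero, mul_eq_zero] at h1
    rcases h1 with h1 | h1
    · exact absurd (sub_eq_zero.1 h1) hne
    · rw [hQi] at h1
      exact h1
  · have h1 : HasDerivAt (fun s => (s - 1) * Q s) (Q 1) 1 := by
      have h2 := ((hasDerivAt_id (1 : ℂ)).sub_const 1).fun_mul (hQd 1 (by simp)).hasDerivAt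
      simpa using h2
    have hK1 : Kf 1 = 0 := by
      simp only [hKf, Complex.cosh]
      have e1 : (1 - 1 / 2 : ℂ) * ε = ε / 2 := by ring
      rw [e1]
      ring
    have hK' : HasDerivAt Kf (2 * ε * Complex.sinh (ε / 2)) 1 := by
      have e0 : HasDerivAt (fun s : ℂ => (s - 1 / 2) * ε) (1 * ε) 1 :=
        ((hasDerivAt_id (1 : ℂ)).sub_const _).mul_const _
      have e2 := ((e0.neg.cexp).add e0.cexp).sub_const (2 * Complex.cosh (ε / 2))
      have e3 : (1 - 1 / 2 : ℂ) * ε = ε / 2 := by ring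
      refine e2.congr_deriv ?_
      simp only [Complex.sinh]
      simp only [Pi.neg_apply]
      rw [e3]
      ring
    have h2 : HasDerivAt (fun s => Kf s * (FF s * Mh s))
        (2 * ε * Complex.sinh (ε / 2) * (FF 1 * Mh 1)) 1 := by
      have h3 := hK'.mul ((FF_diff 1).mul (hMd 1 (by simp))).hasDerivAt
      refine h3.congr_deriv ?_
      rw [hK1, zero_mul, add_zero]
      rfl
    have h3 : (fun s => (s - 1) * Q s) =ᶠ[𝓝 1] (fun s => Kf s * (FF s * Mh s)) :=
      heq.eventuallyEq_of_mem (hU.mem_nhds (by simp))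
    have h4 := h1.unique (h2.congr_of_eventuallyEq h3)
    rw [FF_one, one_mul] at h4
    have h5 : Mh 1 = ((∫ x in Ioi (0 : ℝ), h x : ℝ) : ℂ) := by
      simp only [hMh, mellin]
      rw [← integral_complex_ofReal]
      refine setIntegral_congr_fun measurableSet_Ioi fun x _ => ?_
      simp
    have h6 : ∫ x, h x = 2 * ∫ x in Ioi (0 : ℝ), h x := by
      rw [← integral_comp_abs]
      refine integral_congr_ae (ae_of_all _ fun x => ?_)
      rcases abs_choice x with hx | hx
      · simp only [hx]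
      · simp only [hx, heven]
    have h7 : Q 1 = ((∫ u : ℝ, qq ε h u * Real.exp (u / 2) : ℝ) : ℂ) := by
      rw [hQi, ← integral_complex_ofReal]
      refine integral_congr_ae (ae_of_all _ fun u => ?_)
      simp only
      push_cast
      congr 2
      ring
    rw [h7, h5] at h4
    rw [h6]
    have h8 : ((∫ u : ℝ, qq ε h u * Real.exp (u / 2) : ℝ) : ℂ) =
        ((ε * Real.sinh (ε / 2) * (2 * ∫ x in Ioi (0 : ℝ), h x) : ℝ) : ℂ) := by
      rw [h4]
      push_cast
      ring
    exact_mod_cast h8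

end Pool.Agent.W806.WQ
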